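import Pool.Agent.H32.S36.Targets

/-!
# MP_e90fb2_nt, board sk36_modules: module BRA
-/

set_option autoImplicit false

open Complex

namespace Pool.Agent.H32.S36

/-- the open upper half plane -/
def BRA_U : Set ℂ := {τ : ℂ | 0 < τ.im}

theorem BRA_isOpen : IsOpen BRA_U := isOpen_lt continuous_const Complex.continuous_im

theorem BRA_im_moeb (a b c d : ℝ) (τ : ℂ) (h : 0 < τ.im) (hdet : 0 < a * d - b * c) :
    0 < (((a : ℂ) * τ + b) / ((c : ℂ) * τ + d)).im := by
  have hw : (c : ℂ) * τ + d ≠ 0 := by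
    intro h0
    have h1 := congrArg Complex.im h0
    have h2 := congrArg Complex.re h0
    simp at h1 h2
    rcases h1 with h1 | h1
    · subst h1
      simp at h2
      subst h2
      simp at hdet
    · linarith
  have hn : 0 < Complex.normSq ((c : ℂ) * τ + d) := Complex.normSq_pos.2 hw
  rw [Complex.div_im, ← sub_div]
  apply div_pos _ hn
  simp
  nlinarith

theorem BRA_im10 (τ : ℂ) (h : 0 < τ.im) : 0 < (-1 / (10 * τ)).im := by
  have := BRA_im_moeb 0 (-1) 10 0 τ h (by norm_num)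
  simpa using this

theorem BRA_im5 (τ : ℂ) (h : 0 < τ.im) : 0 < ((5 * τ - 3) / (10 * τ - 5)).im := by
  have := BRA_im_moeb 5 (-3) 10 (-5) τ h (by norm_num)
  simpa [sub_eq_add_neg] using this

theorem BRA_ne10 (τ : ℂ) (h : 0 < τ.im) : τ ≠ 0 := by
  rintro rfl
  simp at h

theorem BRA_ne5 (τ : ℂ) (h : 0 < τ.im) : 2 * τ - 1 ≠ 0 := by
  intro h0
  have h1 := congrArg Complex.im h0
  simp at h1
  linarith

/-- general transformation of the bracket -/
theorem BRA_main (h W w1 σ : ℂ → ℂ) (hh : DifferentiableOn ℂ h BRA_U)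
    (hW : ∀ z ∈ BRA_U, W z ∈ BRA_U) (hWd : ∀ z ∈ BRA_U, HasDerivAt W (w1 z) z)
    (hw1 : ∀ z ∈ BRA_U, HasDerivAt w1 (σ z * w1 z) z)
    (hσ : ∀ z ∈ BRA_U, HasDerivAt σ (σ z ^ 2 / 2) z) (hw0 : ∀ z ∈ BRA_U, w1 z ≠ 0)
    (hT : ∀ z ∈ BRA_U, h (W z) = -w1 z * h z) (z : ℂ) (hz : z ∈ BRA_U) :
    2 * h (W z) * deriv (deriv h) (W z) - deriv h (W z) ^ 2 =
      2 * h z * deriv (deriv h) z - deriv h z ^ 2 := by
  have hd1 : DifferentiableOn ℂ (deriv h) BRA_U := hh.deriv BRA_isOpen
  have hat : ∀ z ∈ BRA_U, HasDerivAt h (deriv h z) z := fun z hz =>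
    (hh.differentiableAt (BRA_isOpen.mem_nhds hz)).hasDerivAt
  have hat2 : ∀ z ∈ BRA_U, HasDerivAt (deriv h) (deriv (deriv h) z) z := fun z hz =>
    (hd1.differentiableAt (BRA_isOpen.mem_nhds hz)).hasDerivAt
  have h1 : ∀ z ∈ BRA_U, deriv h (W z) = -(σ z * h z + deriv h z) := by
    intro z hz
    have e1 : HasDerivAt (fun z => h (W z)) (deriv h (W z) * w1 z) z :=
      (hat (W z) (hW z hz)).comp z (hWd z hz)
    have e2 : HasDerivAt (fun z => -w1 z * h z) (-(σ z * w1 z) * h z + -w1 z * deriv h z) z :=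
      (hw1 z hz).neg.mul (hat z hz)
    have e3 : (fun z => h (W z)) =ᶠ[nhds z] fun z => -w1 z * h z :=
      Filter.eventually_of_mem (BRA_isOpen.mem_nhds hz) fun y hy => hT y hy
    have e4 := (e2.congr_of_eventuallyEq e3).unique e1
    have hw := hw0 z hz
    have e5 : deriv h (W z) * w1 z = -(σ z * h z + deriv h z) * w1 z := by
      rw [← e4]; ring
    exact mul_right_cancel₀ hw e5
  have h2 : deriv (deriv h) (W z) * w1 z =
      -(σ z ^ 2 / 2 * h z + σ z * deriv h z + deriv (deriv h) z) := by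
    have e1 : HasDerivAt (fun z => deriv h (W z)) (deriv (deriv h) (W z) * w1 z) z :=
      (hat2 (W z) (hW z hz)).comp z (hWd z hz)
    have e2 : HasDerivAt (fun z => -(σ z * h z + deriv h z))
        (-((σ z ^ 2 / 2 * h z + σ z * deriv h z) + deriv (deriv h) z)) z :=
      (((hσ z hz).mul (hat z hz)).add (hat2 z hz)).neg
    have e3 : (fun z => deriv h (W z)) =ᶠ[nhds z] fun z => -(σ z * h z + deriv h z) :=
      Filter.eventually_of_mem (BRA_isOpen.mem_nhds hz) fun y hy => h1 y hy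
    exact ((e2.congr_of_eventuallyEq e3).unique e1).symm
  rw [hT z hz, h1 z hz]
  have : 2 * (-w1 z * h z) * deriv (deriv h) (W z) = -2 * h z * (deriv (deriv h) (W z) * w1 z) := by
    ring
  rw [this, h2]
  ring

theorem BRA_DD (F : ℂ → ℂ) (τ : ℂ) :
    DD (DD F) τ = (2 * Real.pi * Complex.I)⁻¹ * ((2 * Real.pi * Complex.I)⁻¹ *
      deriv (deriv F) τ) := by
  unfold DD
  rw [deriv_const_mul_field]

theorem BRA_br (h : ℂ → ℂ) (τ : ℂ) : 2 * h τ * DD (DD h) τ - DD h τ ^ 2 =
    ((2 * Real.pi * Complex.I)⁻¹) ^ 2 * (2 * h τ * deriv (deriv h) τ - deriv h τ ^ 2) := by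
  rw [BRA_DD]
  unfold DD
  ring

theorem m_BRA : T_BRA := by
  intro h hM
  have hh : DifferentiableOn ℂ h BRA_U := fun z hz => (hM.hol z hz).differentiableWithinAt
  have hd1 : DifferentiableOn ℂ (deriv h) BRA_U := hh.deriv BRA_isOpen
  have hd2 : DifferentiableOn ℂ (deriv (deriv h)) BRA_U := hd1.deriv BRA_isOpen
  have e0 : (fun τ => 2 * h τ * DD (DD h) τ - DD h τ ^ 2) = fun τ =>
      ((2 * Real.pi * Complex.I)⁻¹) ^ 2 * (2 * h τ * deriv (deriv h) τ - deriv h τ ^ 2) :=
    funext fun τ => BRA_br h τ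
  rw [e0]
  refine ⟨?_, ?_, ?_, ?_⟩
  · intro τ hτ
    have hm := BRA_isOpen.mem_nhds (show τ ∈ BRA_U from hτ)
    have a1 := hh.differentiableAt hm
    have a2 := hd1.differentiableAt hm
    have a3 := hd2.differentiableAt hm
    exact (((a1.const_mul 2).mul a3).sub (a2.pow 2)).const_mul _
  · intro τ hτ
    have e1 : ∀ τ ∈ BRA_U, deriv h (τ + 1) = deriv h τ := by
      intro τ hτ
      rw [← deriv_comp_add_const]
      refine Filter.EventuallyEq.deriv_eq ?_
      exact Filter.eventually_of_mem (BRA_isOpen.mem_nhds hτ) fun y hy => hM.per y hy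
    have e2 : ∀ τ ∈ BRA_U, deriv (deriv h) (τ + 1) = deriv (deriv h) τ := by
      intro τ hτ
      rw [← deriv_comp_add_const]
      refine Filter.EventuallyEq.deriv_eq ?_
      exact Filter.eventually_of_mem (BRA_isOpen.mem_nhds hτ) fun y hy => e1 y hy
    rw [hM.per τ hτ, e1 τ hτ, e2 τ hτ]
  · intro τ hτ
    rw [BRA_main h (fun z => -1 / (10 * z)) (fun z => (10 * z ^ 2)⁻¹) (fun z => -2 / z) hh
      (fun z hz => BRA_im10 z hz) ?_ ?_ ?_ ?_ ?_ τ hτ]
    · simp
    · intro z hz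
      have hz0 := BRA_ne10 z hz
      have h1 : HasDerivAt (fun z : ℂ => -1 / (10 * z)) ((0 * (10 * z) - (-1) * (10 * 1)) / (10 * z) ^ 2) z :=
        (hasDerivAt_const z (-1 : ℂ)).div ((hasDerivAt_id z).const_mul 10) (by simp [hz0])
      convert h1 using 1
      field_simp
      ring
    · intro z hz
      have hz0 := BRA_ne10 z hz
      have h1 : HasDerivAt (fun z : ℂ => (10 * z ^ 2)⁻¹)
          (-(10 * ((2 : ℕ) * z ^ (2 - 1))) / (10 * z ^ 2) ^ 2) z :=
        ((hasDerivAt_pow 2 z).const_mul 10).inv (by simp [hz0])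
      convert h1 using 1
      field_simp
      norm_num
    · intro z hz
      have hz0 := BRA_ne10 z hz
      have h1 : HasDerivAt (fun z : ℂ => -2 / z) ((0 * z - (-2) * 1) / z ^ 2) z :=
        (hasDerivAt_const z (-2 : ℂ)).div (hasDerivAt_id z) hz0
      convert h1 using 1
      field_simp
      ring
    · intro z hz
      have hz0 := BRA_ne10 z hz
      simp [hz0]
    · intro z hz
      have := hM.w10 z hz
      rw [this, zpow_neg_one]
      ring
  · intro τ hτ
    rw [BRA_main h (fun z => (5 * z - 3) / (10 * z - 5)) (fun z => (5 * (2 * z - 1) ^ 2)⁻¹)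
      (fun z => -4 / (2 * z - 1)) hh (fun z hz => BRA_im5 z hz) ?_ ?_ ?_ ?_ ?_ τ hτ]
    · simp
    · intro z hz
      have hz0 := BRA_ne5 z hz
      have h5 : 10 * z - 5 ≠ 0 := by
        have : 10 * z - 5 = 5 * (2 * z - 1) := by ring
        rw [this]
        exact mul_ne_zero (by norm_num) hz0
      have h1 : HasDerivAt (fun z : ℂ => (5 * z - 3) / (10 * z - 5))
          (((5 * 1) * (10 * z - 5) - (5 * z - 3) * (10 * 1)) / (10 * z - 5) ^ 2) z :=
        (((hasDerivAt_id z).const_mul 5).sub_const 3).div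
          (((hasDerivAt_id z).const_mul 10).sub_const 5) h5
      convert h1 using 1
      have e : 10 * z - 5 = 5 * (2 * z - 1) := by ring
      rw [e]
      field_simp
      ring
    · intro z hz
      have hz0 := BRA_ne5 z hz
      have h1 : HasDerivAt (fun z : ℂ => (5 * (2 * z - 1) ^ 2)⁻¹)
          (-(5 * ((2 : ℕ) * (2 * z - 1) ^ (2 - 1) * (2 * 1))) / (5 * (2 * z - 1) ^ 2) ^ 2) z :=
        (((((hasDerivAt_id z).const_mul 2).sub_const 1).pow 2).const_mul 5).inv (by simp [hz0])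
      convert h1 using 1
      field_simp
      norm_num
    · intro z hz
      have hz0 := BRA_ne5 z hz
      have h1 : HasDerivAt (fun z : ℂ => -4 / (2 * z - 1))
          ((0 * (2 * z - 1) - (-4) * (2 * 1)) / (2 * z - 1) ^ 2) z :=
        (hasDerivAt_const z (-4 : ℂ)).div (((hasDerivAt_id z).const_mul 2).sub_const 1) hz0
      convert h1 using 1
      field_simp
      ring
    · intro z hz
      have hz0 := BRA_ne5 z hz
      simp [hz0]
    · intro z hz
      have := hM.w5 z hz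
      rw [this, zpow_neg_one]
      ring

end Pool.Agent.H32.S36
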