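import Pool.Agent.H65.S36.BRA

/-!
# MP_e90fb2_nt, board sk36_modules: module HHH
-/

set_option autoImplicit false

open Complex Filter Topology

namespace Pool.Agent.H32.S36

theorem HHH_conn : IsPreconnected BRA_U := by
  have : Convex ℝ BRA_U := convex_halfSpace_im_gt 0
  exact this.isPreconnected

theorem HHH_analytic {f : ℂ → ℂ} (hf : DifferentiableOn ℂ f BRA_U) : AnalyticOnNhd ℂ f BRA_U :=
  hf.analyticOnNhd BRA_isOpen

/-- `ff` is not identically zero. -/
theorem HHH_ff_ne (h2 : T_VTR) (h3 : T_F4) : ¬ ∀ τ ∈ BRA_U, ff τ = 0 := by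
  intro h0
  obtain ⟨h2, -⟩ := h2
  -- fx = 0
  have hx : ∀ τ ∈ BRA_U, fx τ = 0 := by
    intro τ hτ
    have e := h3 τ hτ
    rw [h0 τ hτ] at e
    have hD := (h2 τ hτ).2.2.2.2.2
    have e' : fx τ ^ 3 * fD τ = 0 := by rw [← e]; norm_num
    rcases mul_eq_zero.1 e' with e'' | e''
    · exact pow_eq_zero_iff (by norm_num) |>.1 e''
    · exact absurd e'' hD
  -- the derivative of fv is zero
  have hd : ∀ τ ∈ BRA_U, deriv fv τ = 0 := by
    intro τ hτ
    have e := h0 τ hτ
    unfold ff at e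
    have hv := (h2 τ hτ).1
    rw [div_eq_zero_iff] at e
    rcases e with e | e
    · rw [neg_eq_zero] at e
      unfold DD at e
      rcases mul_eq_zero.1 e with e' | e'
      · exfalso
        have : (2 * Real.pi * Complex.I : ℂ) ≠ 0 := by
          simp [Real.pi_ne_zero, Complex.I_ne_zero]
        exact inv_ne_zero this e'
      · exact e'
    · exact absurd e hv
  have hdo : DifferentiableOn ℂ fv BRA_U := fun z hz => (h2 z hz).2.1.differentiableWithinAt
  -- fv is constant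
  have hI : (Complex.I : ℂ) ∈ BRA_U := by
    change 0 < Complex.I.im
    simp
  have hconst : ∀ τ ∈ BRA_U, ∀ τ' ∈ BRA_U, fv τ = fv τ' := by
    intro τ hτ τ' hτ'
    have hconv : Convex ℝ BRA_U := convex_halfSpace_im_gt 0
    refine hconv.is_const_of_fderivWithin_eq_zero (𝕜 := ℂ) hdo ?_ hτ hτ'
    intro z hz
    rw [fderivWithin_eq_fderiv (BRA_isOpen.uniqueDiffWithinAt hz)
      (hdo.differentiableAt (BRA_isOpen.mem_nhds hz))]
    ext
    simp [hd z hz]
  have hW := (h2 Complex.I hI).2.2.2.1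
  have e1 := hconst (-1 / (10 * Complex.I)) (BRA_im10 _ hI) Complex.I hI
  have hv := (h2 Complex.I hI).1
  rw [e1, eq_div_iff hv] at hW
  have e2 := hx Complex.I hI
  unfold fx at e2
  have e3 : fv Complex.I * fv Complex.I + 6 * fv Complex.I + 25 = 0 := by
    field_simp at e2
    linear_combination e2
  rw [hW] at e3
  have e4 : fv Complex.I = -25 / 3 := by
    linear_combination e3 / 6
  rw [e4] at hW
  norm_num at hW

theorem HHH_key (h2 : T_VTR) (h3 : T_F4) (τ : ℂ) (hτ : 0 < τ.im) :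
    fh τ * ff τ = fx τ ∧ fh τ ^ 4 * fD τ = fx τ ∧ (ff τ = 0 → fx τ = 0) := by
  have hD := (h2.1 τ hτ).2.2.2.2.2
  have e := h3 τ hτ
  have h0 : ff τ = 0 → fx τ = 0 := by
    intro hf
    rw [hf] at e
    have e' : fx τ ^ 3 * fD τ = 0 := by rw [← e]; norm_num
    rcases mul_eq_zero.1 e' with e'' | e''
    · exact pow_eq_zero_iff (by norm_num) |>.1 e''
    · exact absurd e'' hD
  by_cases hf : ff τ = 0
  · have hx := h0 hf
    refine ⟨?_, ?_, h0⟩
    · rw [hf, hx]; simp
    · unfold fh; rw [hx]; simp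
  · have hx : fx τ ≠ 0 := by
      intro hx
      rw [hx] at e
      have : ff τ ^ 4 = 0 := by rw [e]; simp
      exact hf (pow_eq_zero_iff (by norm_num) |>.1 this)
    refine ⟨?_, ?_, h0⟩
    · unfold fh; field_simp
    · unfold fh
      rw [div_pow, e]
      field_simp

theorem HHH_hol (h1 : T_MFF) (h2 : T_VTR) (h3 : T_F4) (τ : ℂ) (hτ : 0 < τ.im) :
    DifferentiableAt ℂ fh τ := by
  obtain ⟨hx, hf, -⟩ := h1
  have hxo : DifferentiableOn ℂ fx BRA_U := fun z hz => (hx.hol z hz).differentiableWithinAt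
  have hfo : DifferentiableOn ℂ ff BRA_U := fun z hz => (hf.hol z hz).differentiableWithinAt
  by_cases h0 : ff τ = 0
  · -- punctured neighbourhood
    have hne : ∀ᶠ z in 𝓝[≠] τ, ff z ≠ 0 := by
      rcases (HHH_analytic hfo τ hτ).eventually_eq_zero_or_eventually_ne_zero with h | h
      · exfalso
        apply HHH_ff_ne h2 h3
        intro z hz
        have := (HHH_analytic hfo).eqOn_zero_of_preconnected_of_eventuallyEq_zero HHH_conn hτ h
        exact this hz
      · exact h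
    have hU : ∀ᶠ z in 𝓝[≠] τ, z ∈ BRA_U :=
      eventually_nhdsWithin_of_eventually_nhds (BRA_isOpen.mem_nhds hτ)
    have hd : ∀ᶠ z in 𝓝[≠] τ, DifferentiableAt ℂ fh z := by
      filter_upwards [hne, hU] with z hz hzU
      exact (hx.hol z hzU).div (hf.hol z hzU) hz
    have hx0 : fx τ = 0 := (HHH_key h2 h3 τ hτ).2.2 h0
    have hfh0 : fh τ = 0 := by unfold fh; rw [hx0]; simp
    have hD : fD τ ≠ 0 := (h2.1 τ hτ).2.2.2.2.2
    have hDc : ContinuousAt fD τ := (h2.2.hol τ hτ).continuousAt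
    have hxc : ContinuousAt fx τ := (hx.hol τ hτ).continuousAt
    have hc : ContinuousAt fh τ := by
      have hq : Tendsto (fun z => ‖fx z / fD z‖) (𝓝 τ) (𝓝 0) := by
        have := (hxc.div hDc hD).norm
        unfold ContinuousAt at this
        simpa [hx0] using this
      have hr : Tendsto (fun z => ‖fx z / fD z‖ ^ ((1:ℝ)/4)) (𝓝 τ) (𝓝 0) := by
        have := hq.rpow_const (p := (1:ℝ)/4) (Or.inr (by norm_num))
        rwa [Real.zero_rpow (by norm_num)] at this
      unfold ContinuousAt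
      rw [hfh0, tendsto_zero_iff_norm_tendsto_zero]
      refine hr.congr' ?_
      filter_upwards [BRA_isOpen.mem_nhds hτ] with z hz
      have hk := (HHH_key h2 h3 z hz).2.1
      have hDz : fD z ≠ 0 := (h2.1 z hz).2.2.2.2.2
      have e : fx z / fD z = fh z ^ 4 := by
        rw [← hk]; field_simp
      rw [e, norm_pow, ← Real.rpow_natCast, ← Real.rpow_mul (norm_nonneg _)]
      norm_num
    exact (Complex.analyticAt_of_differentiable_on_punctured_nhds_of_continuousAt hd hc).differentiableAt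
  · exact (hx.hol τ hτ).div (hf.hol τ hτ) h0

theorem m_HHH (h1 : T_MFF) (h2 : T_VTR) (h3 : T_F4) (h4 : T_FVL) (h5 : T_HLD) (h6 : T_HLM)
    (h7 : T_HLL) (h8 : T_NU1) (h9 : T_NU2) : T_HHH := by
  have _ := h4
  have _ := h5
  have _ := h6
  have _ := h7
  have _ := h8
  have _ := h9
  refine ⟨⟨HHH_hol h1 h2 h3, ?_, ?_, ?_⟩, fun τ hτ =>
    ⟨(HHH_key h2 h3 τ hτ).1, (HHH_key h2 h3 τ hτ).2.1⟩⟩
  · intro τ hτ
    unfold fh
    rw [h1.1.per τ hτ, h1.2.1.per τ hτ]
  · intro τ hτ
    unfold fh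
    rw [h1.1.w10 τ hτ, h1.2.1.w10 τ hτ, zpow_zero, zpow_one, zpow_neg_one, one_mul, one_mul,
      div_eq_mul_inv, div_eq_mul_inv, mul_inv, mul_inv]
    ring
  · intro τ hτ
    unfold fh
    rw [h1.1.w5 τ hτ, h1.2.1.w5 τ hτ, zpow_zero, zpow_one, zpow_neg_one, one_mul, one_mul,
      div_eq_mul_inv, div_eq_mul_inv, mul_inv, mul_inv]
    ring

end Pool.Agent.H32.S36
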