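import Pool.Agent.H65.S36.BRA

/-!
# MP_e90fb2_nt, board sk36_modules: module HKP
-/

set_option autoImplicit false

open Complex

namespace Pool.Agent.H32.S36

theorem HKP_per_nat {h : ℂ → ℂ} (hp : ∀ τ : ℂ, 0 < τ.im → h (τ + 1) = h τ) (n : ℕ) (τ : ℂ)
    (hτ : 0 < τ.im) : h (τ + n) = h τ := by
  induction n with
  | zero => simp
  | succ n ih =>
    rw [← ih]
    have := hp (τ + n) (by simpa using hτ)
    push_cast
    rw [← add_assoc]
    exact this

theorem HKP_per_int {h : ℂ → ℂ} (hp : ∀ τ : ℂ, 0 < τ.im → h (τ + 1) = h τ) (n : ℤ) (τ : ℂ)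
    (hτ : 0 < τ.im) : h (τ + n) = h τ := by
  obtain ⟨k, rfl | rfl⟩ := n.eq_nat_or_neg
  · have := HKP_per_nat hp k τ hτ
    push_cast
    exact this
  · have := HKP_per_nat hp k (τ + ((-(k:ℤ) : ℤ) : ℂ)) (by simpa using hτ)
    rw [← this]
    push_cast
    congr 1
    ring

theorem HKP_im_div {τ : ℂ} (hτ : 0 < τ.im) (k : ℤ) (p : ℕ) (hp : 0 < p) :
    0 < ((τ + k) / p).im := by
  have e : ((τ + (k : ℂ)) / (p : ℂ)).im = τ.im / p := by
    rw [Complex.div_natCast_im]
    simp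
  rw [e]
  have : (0:ℝ) < p := by exact_mod_cast hp
  positivity

theorem HKP_im_mul {τ : ℂ} (hτ : 0 < τ.im) (p : ℕ) (hp : 0 < p) :
    0 < ((p : ℂ) * τ).im := by
  have e : ((p : ℂ) * τ).im = p * τ.im := by simp
  rw [e]
  have : (0:ℝ) < p := by exact_mod_cast hp
  positivity

/-- `hk p h (some j)` can be computed with any representative of `j`. -/
theorem HKP_rep {h : ℂ → ℂ} (hp : ∀ τ : ℂ, 0 < τ.im → h (τ + 1) = h τ) (p : ℕ) [Fact p.Prime]
    (j : ZMod p) (k : ℤ) (hk' : (k : ZMod p) = j) (τ : ℂ) (hτ : 0 < τ.im) :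
    hk p h (some j) τ = (p : ℂ) ^ 2 * h ((τ + k) / p) := by
  have hp0 : 0 < p := (Fact.out : p.Prime).pos
  have hpc : (p : ℂ) ≠ 0 := by exact_mod_cast hp0.ne'
  unfold hk
  have h1 : ((j.val : ℤ) : ZMod p) = (k : ZMod p) := by
    rw [hk']
    push_cast
    exact ZMod.natCast_zmod_val j
  have h2 : (p : ℤ) ∣ k - j.val := by
    rw [← ZMod.intCast_zmod_eq_zero_iff_dvd]
    rw [Int.cast_sub, h1, sub_self]
  obtain ⟨m, hm⟩ := h2
  have e : (τ + (k : ℂ)) / p = (τ + (j.val : ℂ)) / p + (m : ℂ) := by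
    have : (k : ℂ) = (j.val : ℂ) + (p : ℂ) * (m : ℂ) := by
      have h3 : k = j.val + p * m := by omega
      rw [h3]
      push_cast
      ring
    rw [this]
    field_simp
    ring
  rw [e, HKP_per_int hp m]
  exact HKP_im_div hτ (j.val : ℤ) p hp0

section perms

variable (p : ℕ) [hp : Fact p.Prime]

/-- the permutation for `W10` -/
def HKP_s10 : Option (ZMod p) → Option (ZMod p)
  | none => some 0
  | some j => if j = 0 then none else some (-(10 * j)⁻¹)

/-- the permutation for `W5` -/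
def HKP_s5 : Option (ZMod p) → Option (ZMod p)
  | none => some (-(2 : ZMod p)⁻¹)
  | some j => if 2 * j + 1 = 0 then none else some (-((5 * j + 3) * (10 * j + 5)⁻¹))

theorem HKP_ten (h2 : p ≠ 2) (h5 : p ≠ 5) :
    (2 : ZMod p) ≠ 0 ∧ (5 : ZMod p) ≠ 0 ∧ (10 : ZMod p) ≠ 0 := by
  have h2' : (2 : ZMod p) ≠ 0 := by
    intro h
    have : ((2 : ℕ) : ZMod p) = 0 := by exact_mod_cast h
    rw [ZMod.natCast_eq_zero_iff] at this
    exact h2 ((Nat.prime_dvd_prime_iff_eq hp.out Nat.prime_two).1 this)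
  have h5' : (5 : ZMod p) ≠ 0 := by
    intro h
    have : ((5 : ℕ) : ZMod p) = 0 := by exact_mod_cast h
    rw [ZMod.natCast_eq_zero_iff] at this
    exact h5 ((Nat.prime_dvd_prime_iff_eq hp.out Nat.prime_five).1 this)
  refine ⟨h2', h5', ?_⟩
  have : (10 : ZMod p) = 2 * 5 := by norm_num
  rw [this]
  exact mul_ne_zero h2' h5'

theorem HKP_inv10 (h2 : p ≠ 2) (h5 : p ≠ 5) : Function.Involutive (HKP_s10 p) := by
  obtain ⟨_, _, h10⟩ := HKP_ten p h2 h5
  intro i
  rcases i with _ | j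
  · simp [HKP_s10]
  · by_cases hj : j = 0
    · simp [HKP_s10, hj]
    · have h1 : (10 * j)⁻¹ ≠ 0 := inv_ne_zero (mul_ne_zero h10 hj)
      simp only [HKP_s10, hj, if_false, neg_eq_zero, h1]
      congr 1
      field_simp

theorem HKP_inv5 (h2 : p ≠ 2) (h5 : p ≠ 5) : Function.Involutive (HKP_s5 p) := by
  obtain ⟨h2', h5', h10⟩ := HKP_ten p h2 h5
  intro i
  rcases i with _ | j
  · have : 2 * (-(2 : ZMod p)⁻¹) + 1 = 0 := by field_simp; ring
    simp only [HKP_s5, this, if_true]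
  · by_cases hj : 2 * j + 1 = 0
    · simp only [HKP_s5, hj, if_true]
      congr 1
      have : j = -(2 : ZMod p)⁻¹ := by
        field_simp
        linear_combination hj
      exact this.symm
    · have h1 : 10 * j + 5 ≠ 0 := by
        have : 10 * j + 5 = 5 * (2 * j + 1) := by ring
        rw [this]
        exact mul_ne_zero h5' hj
      obtain ⟨u, hu, hu0, hue⟩ : ∃ u : ZMod p, (10 * j + 5) * u = 1 ∧ u ≠ 0 ∧
          (10 * j + 5)⁻¹ = u := ⟨_, mul_inv_cancel₀ h1, inv_ne_zero h1, rfl⟩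
      have h3 : 2 * (-((5 * j + 3) * u)) + 1 = -u := by
        linear_combination -hu
      have h4 : 2 * (-((5 * j + 3) * u)) + 1 ≠ 0 := by
        rw [h3]
        exact neg_ne_zero.2 hu0
      have e1 : HKP_s5 p (some j) = some (-((5 * j + 3) * u)) := by
        simp [HKP_s5, hj, hue]
      have e2 : HKP_s5 p (some (-((5 * j + 3) * u))) = some (-((5 * (-((5 * j + 3) * u)) + 3) *
          (10 * (-((5 * j + 3) * u)) + 5)⁻¹)) := by
        simp only [HKP_s5, if_neg h4]
      rw [e1, e2]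
      congr 1
      have h5 : 10 * (-((5 * j + 3) * u)) + 5 = -5 * u := by
        linear_combination (-5) * hu
      have h6 : (5 : ZMod p) * (-((5 * j + 3) * u)) + 3 = 5 * j * u := by
        linear_combination (-3) * hu
      rw [h5, h6]
      have h7 : (-5 * u : ZMod p) ≠ 0 := mul_ne_zero (neg_ne_zero.2 h5') hu0
      rw [neg_eq_iff_eq_neg, mul_inv_eq_iff_eq_mul₀ h7]
      ring

end perms

theorem HKP_T (h : ℂ → ℂ) (hM : MF (-1) (-1) h) (p : ℕ) [Fact p.Prime] (i : Option (ZMod p)) (τ : ℂ)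
    (hτ : 0 < τ.im) : hk p h i (τ + 1) =
      hk p h ((Equiv.optionCongr (Equiv.addRight (1 : ZMod p))) i) τ := by
  rcases i with _ | j
  · change h (p * (τ + 1)) = h (p * τ)
    have := HKP_per_nat hM.per p (p * τ) (HKP_im_mul hτ p (Fact.out : p.Prime).pos)
    rw [← this]
    congr 1
    ring
  · have e1 := HKP_rep hM.per p j (j.val : ℤ) (by simp) (τ + 1) (by simpa using hτ)
    have e2 := HKP_rep hM.per p (j + 1) ((j.val : ℤ) + 1) (by simp) τ hτ
    change hk p h (some j) (τ + 1) = hk p h (some (j + 1)) τ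
    rw [e1, e2]
    congr 2
    push_cast
    ring

theorem HKP_W10 (hG : T_GEN) (h : ℂ → ℂ) (hM : MF (-1) (-1) h) (p : ℕ) [Fact p.Prime]
    (h2 : p ≠ 2) (h5 : p ≠ 5) (i : Option (ZMod p)) (τ : ℂ) (hτ : 0 < τ.im) :
    hk p h i (-1 / (10 * τ)) = -(10 * τ ^ 2)⁻¹ * hk p h (HKP_s10 p i) τ := by
  obtain ⟨_, _, h10⟩ := HKP_ten p h2 h5
  have hp0 : 0 < p := (Fact.out : p.Prime).pos
  have hpc : (p : ℂ) ≠ 0 := by exact_mod_cast hp0.ne'
  have hτ0 := BRA_ne10 τ hτ
  rcases i with _ | j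
  · change h (p * (-1 / (10 * τ))) = -(10 * τ ^ 2)⁻¹ * hk p h (some 0) τ
    rw [HKP_rep hM.per p 0 0 (by simp) τ hτ]
    have him : 0 < (τ / p).im := by
      have := HKP_im_div hτ 0 p hp0
      simpa using this
    have e := hM.w10 (τ / p) him
    have e1 : (p : ℂ) * (-1 / (10 * τ)) = -1 / (10 * (τ / p)) := by field_simp
    rw [e1, e, zpow_neg_one]
    simp only [Int.cast_zero, add_zero]
    field_simp
  · by_cases hj : j = 0
    · subst hj
      have e0 : HKP_s10 p (some 0) = none := by simp [HKP_s10]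
      rw [e0, HKP_rep hM.per p 0 0 (by simp) _ (BRA_im10 τ hτ)]
      change _ = -(10 * τ ^ 2)⁻¹ * h (p * τ)
      have e := hM.w10 (p * τ) (HKP_im_mul hτ p hp0)
      have e1 : (-1 / (10 * τ) + ((0 : ℤ) : ℂ)) / (p : ℂ) = -1 / (10 * (p * τ)) := by
        push_cast
        field_simp
        ring
      rw [e1, e, zpow_neg_one]
      field_simp
    · have e0 : HKP_s10 p (some j) = some (-(10 * j)⁻¹) := by simp [HKP_s10, hj]
      rw [e0]
      set k : ZMod p := -(10 * j)⁻¹ with hk'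
      set J : ℤ := (j.val : ℤ) with hJ
      set K : ℤ := (k.val : ℤ) with hK
      have hJj : (J : ZMod p) = j := by simp [hJ]
      have hKk : (K : ZMod p) = k := by simp [hK]
      have hdvd : (p : ℤ) ∣ 10 * J * K + 1 := by
        rw [← ZMod.intCast_zmod_eq_zero_iff_dvd]
        push_cast
        rw [hJj, hKk, hk']
        field_simp
        ring
      obtain ⟨m, hm⟩ := hdvd
      rw [HKP_rep hM.per p j J hJj _ (BRA_im10 τ hτ), HKP_rep hM.per p k K hKk τ hτ]
      have hg := hG h (-1) (-1) (by norm_num) hM (10 * J) (-m) (10 * p) (-10 * K) 10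
        (by right; right; right; rfl) (by linear_combination -10 * hm)
        ⟨J, by ring⟩ ⟨-K, by ring⟩ ⟨p, by ring⟩ ((τ + K) / p) (HKP_im_div hτ K p hp0)
      have hmc : (p : ℂ) * (m : ℂ) = 10 * J * K + 1 := by exact_mod_cast hm.symm
      have e1 : (((10 * J : ℤ) : ℂ) * ((τ + K) / p) + ((-m : ℤ) : ℂ)) /
          (((10 * p : ℤ) : ℂ) * ((τ + K) / p) + ((-10 * K : ℤ) : ℂ)) =
          (-1 / (10 * τ) + J) / p := by
        have n1 : ((10 * J : ℤ) : ℂ) * ((τ + K) / p) + ((-m : ℤ) : ℂ) = (10 * J * τ - 1) / p := by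
          push_cast
          field_simp
          linear_combination -hmc
        have n2 : ((10 * p : ℤ) : ℂ) * ((τ + K) / p) + ((-10 * K : ℤ) : ℂ) = 10 * τ := by
          push_cast
          field_simp
          ring
        rw [n1, n2]
        field_simp
        ring
      have n2 : ((10 * p : ℤ) : ℂ) * ((τ + K) / p) + ((-10 * K : ℤ) : ℂ) = 10 * τ := by
        push_cast
        field_simp
        ring
      rw [e1, n2] at hg
      rw [hg, zpow_neg_one]
      norm_num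
      field_simp

theorem HKP_W5 (hG : T_GEN) (h : ℂ → ℂ) (hM : MF (-1) (-1) h) (p : ℕ) [Fact p.Prime]
    (h2 : p ≠ 2) (h5 : p ≠ 5) (i : Option (ZMod p)) (τ : ℂ) (hτ : 0 < τ.im) :
    hk p h i ((5 * τ - 3) / (10 * τ - 5)) =
      -(5 * (2 * τ - 1) ^ 2)⁻¹ * hk p h (HKP_s5 p i) τ := by
  obtain ⟨h2', h5', h10⟩ := HKP_ten p h2 h5
  have hp0 : 0 < p := (Fact.out : p.Prime).pos
  have hpc : (p : ℂ) ≠ 0 := by exact_mod_cast hp0.ne'
  have hτ1 := BRA_ne5 τ hτ
  have hτ5 : 10 * τ - 5 ≠ 0 := by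
    have : 10 * τ - 5 = 5 * (2 * τ - 1) := by ring
    rw [this]
    exact mul_ne_zero (by norm_num) hτ1
  have e10 : 10 * τ - 5 = 5 * (2 * τ - 1) := by ring
  -- representative of -1/2
  obtain ⟨K0, hK0⟩ : ∃ K0 : ℤ, 2 * K0 + 1 = p := by
    have hodd : Odd p := (Fact.out : p.Prime).odd_of_ne_two h2
    obtain ⟨m, hm⟩ := hodd
    exact ⟨m, by rw [hm]; push_cast; ring⟩
  have hK0c : 2 * (K0 : ℂ) + 1 = p := by exact_mod_cast hK0
  have hK0z : (K0 : ZMod p) = -(2 : ZMod p)⁻¹ := by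
    have : ((2 * K0 + 1 : ℤ) : ZMod p) = 0 := by rw [hK0]; simp
    push_cast at this
    field_simp
    linear_combination this
  rcases i with _ | j
  · change h (p * ((5 * τ - 3) / (10 * τ - 5))) =
      -(5 * (2 * τ - 1) ^ 2)⁻¹ * hk p h (some (-(2 : ZMod p)⁻¹)) τ
    rw [HKP_rep hM.per p _ K0 hK0z τ hτ]
    have hg := hG h (-1) (-1) (by norm_num) hM (5 * p) (-5 * K0 - 3) 10 (-5) 5
      (by right; right; left; rfl) (by linear_combination 25 * hK0)
      ⟨p, by ring⟩ ⟨-1, by ring⟩ ⟨1, by ring⟩ ((τ + K0) / p) (HKP_im_div hτ K0 p hp0)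
    have n1 : ((5 * p : ℤ) : ℂ) * ((τ + K0) / p) + ((-5 * K0 - 3 : ℤ) : ℂ) = 5 * τ - 3 := by
      push_cast
      field_simp
      ring
    have n2 : ((10 : ℤ) : ℂ) * ((τ + K0) / p) + ((-5 : ℤ) : ℂ) = (10 * τ - 5) / p := by
      push_cast
      field_simp
      linear_combination 5 * hK0c
    rw [n1, n2] at hg
    have e1 : (5 * τ - 3) / ((10 * τ - 5) / (p : ℂ)) = p * ((5 * τ - 3) / (10 * τ - 5)) := by
      field_simp
    rw [e1] at hg
    rw [hg, zpow_neg_one, e10]
    norm_num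
    field_simp
  · by_cases hj : 2 * j + 1 = 0
    · have e0 : HKP_s5 p (some j) = none := by simp [HKP_s5, hj]
      have hj' : (K0 : ZMod p) = j := by
        rw [hK0z]
        have : j = -(2 : ZMod p)⁻¹ := by
          field_simp
          linear_combination hj
        exact this.symm
      rw [e0, HKP_rep hM.per p j K0 hj' _ (BRA_im5 τ hτ)]
      change _ = -(5 * (2 * τ - 1) ^ 2)⁻¹ * h (p * τ)
      have hg := hG h (-1) (-1) (by norm_num) hM 5 (-3 - 5 * K0) 10 (-5 * p) 5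
        (by right; right; left; rfl) (by linear_combination 25 * hK0)
        ⟨1, by ring⟩ ⟨-p, by ring⟩ ⟨1, by ring⟩ (p * τ) (HKP_im_mul hτ p hp0)
      have n2 : ((10 : ℤ) : ℂ) * (p * τ) + ((-5 * p : ℤ) : ℂ) = p * (10 * τ - 5) := by
        push_cast; ring
      have e1 : (((5 : ℤ) : ℂ) * (p * τ) + ((-3 - 5 * K0 : ℤ) : ℂ)) /
          (((10 : ℤ) : ℂ) * (p * τ) + ((-5 * p : ℤ) : ℂ)) =
          ((5 * τ - 3) / (10 * τ - 5) + K0) / p := by
        rw [n2, div_add' _ _ _ hτ5, div_div, mul_comm (10 * τ - 5) (p : ℂ)]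
        congr 1
        push_cast
        linear_combination (-5 * τ) * hK0c
      rw [e1, n2] at hg
      rw [hg, zpow_neg_one, e10]
      norm_num
      field_simp
    · have e0 : HKP_s5 p (some j) = some (-((5 * j + 3) * (10 * j + 5)⁻¹)) := by
        simp [HKP_s5, hj]
      rw [e0]
      have h1 : 10 * j + 5 ≠ 0 := by
        have : 10 * j + 5 = 5 * (2 * j + 1) := by ring
        rw [this]
        exact mul_ne_zero h5' hj
      set k : ZMod p := -((5 * j + 3) * (10 * j + 5)⁻¹) with hk'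
      set J : ℤ := (j.val : ℤ) with hJ
      set K : ℤ := (k.val : ℤ) with hK
      have hJj : (J : ZMod p) = j := by simp [hJ]
      have hKk : (K : ZMod p) = k := by simp [hK]
      have hdvd : (p : ℤ) ∣ (5 + 10 * J) * K + 3 + 5 * J := by
        rw [← ZMod.intCast_zmod_eq_zero_iff_dvd]
        push_cast
        rw [hJj, hKk, hk']
        field_simp
        ring
      obtain ⟨m, hm⟩ := hdvd
      rw [HKP_rep hM.per p j J hJj _ (BRA_im5 τ hτ), HKP_rep hM.per p k K hKk τ hτ]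
      have hg := hG h (-1) (-1) (by norm_num) hM (5 + 10 * J) (-m) (10 * p) (-10 * K - 5) 5
        (by right; right; left; rfl) (by linear_combination -10 * hm)
        ⟨1 + 2 * J, by ring⟩ ⟨-2 * K - 1, by ring⟩ ⟨p, by ring⟩ ((τ + K) / p)
        (HKP_im_div hτ K p hp0)
      have hmc : (p : ℂ) * (m : ℂ) = (5 + 10 * J) * K + 3 + 5 * J := by exact_mod_cast hm.symm
      have n1 : ((5 + 10 * J : ℤ) : ℂ) * ((τ + K) / p) + ((-m : ℤ) : ℂ) =
          ((5 + 10 * J) * τ - (3 + 5 * J)) / p := by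
        push_cast
        field_simp
        linear_combination -hmc
      have n2 : ((10 * p : ℤ) : ℂ) * ((τ + K) / p) + ((-10 * K - 5 : ℤ) : ℂ) = 10 * τ - 5 := by
        push_cast
        field_simp
        ring
      have e1 : (((5 + 10 * J : ℤ) : ℂ) * ((τ + K) / p) + ((-m : ℤ) : ℂ)) /
          (((10 * p : ℤ) : ℂ) * ((τ + K) / p) + ((-10 * K - 5 : ℤ) : ℂ)) =
          ((5 * τ - 3) / (10 * τ - 5) + J) / p := by
        rw [n1, n2]
        field_simp
        ring
      rw [e1, n2] at hg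
      rw [hg, zpow_neg_one, e10]
      norm_num
      field_simp

theorem m_HKP (h1 : T_GEN) : T_HKP := by
  intro h hM p _ h2 h5
  have hp0 : 0 < p := (Fact.out : p.Prime).pos
  constructor
  · intro i τ hτ
    rcases i with _ | j
    · change DifferentiableAt ℂ (fun τ => h (p * τ)) τ
      have a1 := hM.hol (p * τ) (HKP_im_mul hτ p hp0)
      exact DifferentiableAt.comp (g := h) (f := fun τ : ℂ => (p : ℂ) * τ) τ a1
        (differentiableAt_id.const_mul _)
    · change DifferentiableAt ℂ (fun τ => (p : ℂ) ^ 2 * h ((τ + (j.val : ℂ)) / p)) τ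
      have a1 := hM.hol ((τ + (j.val : ℂ)) / p) (HKP_im_div hτ (j.val : ℤ) p hp0)
      refine DifferentiableAt.const_mul ?_ _
      exact DifferentiableAt.comp (g := h) (f := fun τ : ℂ => (τ + (j.val : ℂ)) / p) τ a1
        ((differentiableAt_id.add_const _).div_const _)
  · refine ⟨Equiv.optionCongr (Equiv.addRight (1 : ZMod p)), (HKP_inv10 p h2 h5).toPerm,
      (HKP_inv5 p h2 h5).toPerm, ?_⟩
    intro τ hτ i
    exact ⟨HKP_T h hM p i τ hτ, HKP_W10 h1 h hM p h2 h5 i τ hτ, HKP_W5 h1 h hM p h2 h5 i τ hτ⟩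

end Pool.Agent.H32.S36
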